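import Pool.Agent.Helper949.Digits

set_option autoImplicit false

namespace Pool.Agent.Results.MP_258a97_co.SingleFamily

open Pool.Agent.Helper949.Digits

/-- affine map squeezing the `k`-th configuration into the strip `k ≤ x ≤ k + 1/2` -/
noncomputable def sq (k : ℕ) (x : ℝ × ℝ) : ℝ × ℝ := (k + x.1 / (2 * 2 ^ (24 * k)), x.2)

lemma sq_inj (k : ℕ) : Function.Injective (sq k) := by
  intro x y h
  have h1 : (k : ℝ) + x.1 / (2 * 2 ^ (24 * k)) = k + y.1 / (2 * 2 ^ (24 * k)) :=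
    (Prod.ext_iff.mp h).1
  have h2 : x.2 = y.2 := (Prod.ext_iff.mp h).2
  have h3 : x.1 / (2 * 2 ^ (24 * k)) = y.1 / (2 * 2 ^ (24 * k)) := by linarith
  have h4 : (2 * 2 ^ (24 * k) : ℝ) ≠ 0 := by positivity
  have h5 : x.1 = y.1 := by field_simp at h3; exact h3
  exact Prod.ext h5 h2

lemma sq_cont (k : ℕ) : Continuous (sq k) := by
  unfold sq
  fun_prop

/-- There are `d`, `c` and ONE family `L` of simple arcs in the plane with `d` degrees of freedom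
(constant `c`) such that for infinitely many `n` some `n` points and `n` members of `L` have at
least `n ^ (31/23) / 4` incidences; since `31/23 > 4/3`, `I_L(n) / n ^ (4/3)` is unbounded. -/
theorem result :
    ∃ (d c : ℕ) (L : Set (Set (ℝ × ℝ))),
      (∀ γ ∈ L, ∃ f : unitInterval → ℝ × ℝ,
        Continuous f ∧ Function.Injective f ∧ Set.range f = γ) ∧
      (∀ S : Finset (ℝ × ℝ), S.card = d →
        {γ : Set (ℝ × ℝ) | γ ∈ L ∧ (↑S : Set (ℝ × ℝ)) ⊆ γ}.encard ≤ (c : ℕ∞)) ∧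
      (∀ γ₁ ∈ L, ∀ γ₂ ∈ L, γ₁ ≠ γ₂ → (γ₁ ∩ γ₂).encard ≤ (c : ℕ∞)) ∧
      ∀ N₀ : ℕ, ∃ n : ℕ, N₀ ≤ n ∧ ∃ (P : Finset (ℝ × ℝ)) (Γ : Finset (Set (ℝ × ℝ))),
        (↑Γ : Set (Set (ℝ × ℝ))) ⊆ L ∧ P.card = n ∧ Γ.card = n ∧
        (n : ℝ) ^ ((31 : ℝ) / 23) / 4 ≤
          (({x : (ℝ × ℝ) × Set (ℝ × ℝ) | x.1 ∈ P ∧ x.2 ∈ Γ ∧ x.1 ∈ x.2}.ncard : ℕ) : ℝ) := by
  classical
  choose P Γ harc hloc hinter hP hΓ hinc using config
  have hstrip : ∀ k, ∀ γ ∈ Γ k, ∀ x ∈ (sq k) '' γ, (k : ℝ) ≤ x.1 ∧ x.1 ≤ k + 1 / 2 := by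
    rintro k γ hγ _ ⟨y, hy, rfl⟩
    obtain ⟨h0, h1⟩ := hloc k γ hγ y hy
    have hp : (0 : ℝ) < 2 ^ (24 * k) := by positivity
    constructor
    · have : 0 ≤ y.1 / (2 * 2 ^ (24 * k)) := by positivity
      show (k : ℝ) ≤ k + y.1 / (2 * 2 ^ (24 * k))
      linarith
    · have : y.1 / (2 * 2 ^ (24 * k)) ≤ 1 / 2 := by
        rw [div_le_iff₀ (by positivity)]
        linarith
      show (k : ℝ) + y.1 / (2 * 2 ^ (24 * k)) ≤ k + 1 / 2
      linarith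
  have hint : ∀ γ₁ ∈ {γ | ∃ k, ∃ δ ∈ Γ k, γ = (sq k) '' δ},
      ∀ γ₂ ∈ {γ | ∃ k, ∃ δ ∈ Γ k, γ = (sq k) '' δ}, γ₁ ≠ γ₂ →
      (γ₁ ∩ γ₂).encard ≤ ((1542 : ℕ) : ℕ∞) := by
    rintro γ₁ ⟨k, δ, hδ, rfl⟩ γ₂ ⟨l, η, hη, rfl⟩ hne
    by_cases hkl : k = l
    · subst hkl
      rw [← Set.image_inter (sq_inj k)]
      refine (Set.encard_image_le _ _).trans (hinter k δ hδ η hη ?_)
      intro h; exact hne (by rw [h])
    · have : (sq k '' δ) ∩ (sq l '' η) = ∅ := by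
        rw [Set.eq_empty_iff_forall_notMem]
        rintro x ⟨hx1, hx2⟩
        obtain ⟨a1, a2⟩ := hstrip k δ hδ x hx1
        obtain ⟨b1, b2⟩ := hstrip l η hη x hx2
        rcases Nat.lt_or_gt_of_ne hkl with h | h
        · have : (k : ℝ) + 1 ≤ l := by exact_mod_cast h
          linarith
        · have : (l : ℝ) + 1 ≤ k := by exact_mod_cast h
          linarith
      rw [this]
      simp
  refine ⟨1543, 1542, {γ | ∃ k, ∃ δ ∈ Γ k, γ = (sq k) '' δ}, ?_, ?_, hint, ?_⟩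
  · rintro γ ⟨k, δ, hδ, rfl⟩
    obtain ⟨f, hf, hfi, hfr⟩ := harc k δ hδ
    exact ⟨sq k ∘ f, (sq_cont k).comp hf, (sq_inj k).comp hfi, by rw [Set.range_comp, hfr]⟩
  · intro S hS
    calc _ ≤ (1 : ℕ∞) := by
          rw [Set.encard_le_one_iff]
          rintro γ₁ γ₂ ⟨h1, h2⟩ ⟨h3, h4⟩
          by_contra hne
          have h5 := hint γ₁ h1 γ₂ h3 hne
          have h6 : (S : Set (ℝ × ℝ)).encard ≤ (γ₁ ∩ γ₂).encard :=
            Set.encard_le_encard (Set.subset_inter h2 h4)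
          rw [Set.encard_coe_eq_coe_finsetCard, hS] at h6
          have h7 := h6.trans h5
          rw [Nat.cast_le] at h7
          omega
      _ ≤ _ := by exact_mod_cast (by norm_num : 1 ≤ 1542)
  · intro N₀
    refine ⟨2 ^ (69 * N₀ + 3), ?_, (P N₀).image (sq N₀), (Γ N₀).image (fun γ => sq N₀ '' γ),
      ?_, ?_, ?_, ?_⟩
    · have h1 : 69 * N₀ + 3 < 2 ^ (69 * N₀ + 3) := Nat.lt_two_pow_self
      omega
    · intro γ hγ
      rw [Finset.mem_coe, Finset.mem_image] at hγ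
      obtain ⟨δ, hδ, rfl⟩ := hγ
      exact ⟨N₀, δ, hδ, rfl⟩
    · rw [Finset.card_image_of_injective _ (sq_inj N₀), hP]
    · rw [Finset.card_image_of_injective _ (Set.image_injective.mpr (sq_inj N₀)), hΓ]
    · have hle : {x : (ℝ × ℝ) × Set (ℝ × ℝ) | x.1 ∈ P N₀ ∧ x.2 ∈ Γ N₀ ∧ x.1 ∈ x.2}.ncard ≤
          {x : (ℝ × ℝ) × Set (ℝ × ℝ) | x.1 ∈ (P N₀).image (sq N₀) ∧
            x.2 ∈ (Γ N₀).image (fun γ => sq N₀ '' γ) ∧ x.1 ∈ x.2}.ncard := by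
        refine Set.ncard_le_ncard_of_injOn (fun x => (sq N₀ x.1, sq N₀ '' x.2)) ?_ ?_ ?_
        · rintro x ⟨h1, h2, h3⟩
          exact ⟨Finset.mem_image_of_mem _ h1, Finset.mem_image_of_mem _ h2, ⟨_, h3, rfl⟩⟩
        · rintro x _ y _ hxy
          exact Prod.ext (sq_inj N₀ (congrArg Prod.fst hxy))
            (Set.image_injective.mpr (sq_inj N₀) (congrArg Prod.snd hxy))
        · apply Set.Finite.subset (((P N₀).image (sq N₀) ×ˢ
            (Γ N₀).image (fun γ => sq N₀ '' γ)).finite_toSet)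
          rintro x ⟨h1, h2, _⟩
          rw [Finset.mem_coe, Finset.mem_product]
          exact ⟨h1, h2⟩
      refine le_trans ?_ (Nat.cast_le.mpr ((hinc N₀).trans hle))
      have e0 : (((2 ^ (69 * N₀ + 3) : ℕ) : ℝ)) ^ ((31 : ℝ) / 23)
          = (2 : ℝ) ^ (((69 * N₀ + 3 : ℕ) : ℝ) * (31 / 23)) := by
        push_cast
        rw [← Real.rpow_natCast, ← Real.rpow_mul (by norm_num)]
        push_cast
        rfl
      have e1 : ((69 * N₀ + 3 : ℕ) : ℝ) * (31 / 23) ≤ ((93 * N₀ + 5 : ℕ) : ℝ) := by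
        push_cast
        linarith
      have e2 : (((2 ^ (69 * N₀ + 3) : ℕ) : ℝ)) ^ ((31 : ℝ) / 23) ≤ 2 ^ (93 * N₀ + 5) := by
        rw [e0, ← Real.rpow_natCast]
        exact Real.rpow_le_rpow_of_exponent_le (by norm_num) e1
      have e3 : ((2 ^ (69 * N₀ + 3) * 2 ^ (24 * N₀) : ℕ) : ℝ) = 2 ^ (93 * N₀ + 5) / 4 := by
        push_cast
        rw [← pow_add, show 93 * N₀ + 5 = (69 * N₀ + 3 + 24 * N₀) + 2 by ring,
          pow_add 2 (69 * N₀ + 3 + 24 * N₀) 2]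
        ring
      rw [e3]
      linarith

end Pool.Agent.Results.MP_258a97_co.SingleFamily
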